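import Mathlib
import Pool.Agent.MP_0ab388_gt.Core

set_option autoImplicit false

namespace Pool.Agent.Results.MP_0ab388_gt.Main

open Pool.Agent.MP_0ab388_gt

/-- `A` fills `B`: every `U ∈ B` is the union of some subfamily of `A \ {U}`. -/
def Fills {X : Type*} (A B : Set (Set X)) : Prop :=
  ∀ U ∈ B, ∃ A' : Set (Set X), A' ⊆ A \ {U} ∧ U = ⋃₀ A'

/-- A family is self-filling if it fills itself. -/
def SelfFilling {X : Type*} (F : Set (Set X)) : Prop := Fills F F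

/-- A family is resolvable if it splits into two disjoint subfamilies, each filling it. -/
def Resolvable {X : Type*} (F : Set (Set X)) : Prop :=
  ∃ F₀ F₁ : Set (Set X), F = F₀ ∪ F₁ ∧ F₀ ∩ F₁ = ∅ ∧ Fills F₀ F ∧ Fills F₁ F

theorem fills_iff {X : Type*} (A B : Set (Set X)) :
    Fills A B ↔ ∀ U ∈ B, ∀ x ∈ U, ∃ W ∈ A, W ≠ U ∧ x ∈ W ∧ W ⊆ U := by
  constructor
  · intro h U hU x hx
    obtain ⟨A', hA', hUA⟩ := h U hU
    rw [hUA] at hx
    obtain ⟨W, hW, hxW⟩ := hx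
    refine ⟨W, (hA' hW).1, fun h => (hA' hW).2 h, hxW, ?_⟩
    rw [hUA]
    exact Set.subset_sUnion_of_mem hW
  · intro h U hU
    refine ⟨{W | W ∈ A ∧ W ≠ U ∧ W ⊆ U}, ?_, ?_⟩
    · rintro W ⟨h1, h2, _⟩
      exact ⟨h1, h2⟩
    · ext x
      constructor
      · intro hx
        obtain ⟨W, hW, hne, hxW, hsub⟩ := h U hU x hx
        exact ⟨W, ⟨hW, hne, hsub⟩, hxW⟩
      · rintro ⟨W, ⟨_, _, hsub⟩, hxW⟩
        exact hsub hxW

open Classical in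
/-- the characteristic function of a set, as a point of the Baire space -/
noncomputable def pt (x : Set ℕ) : ℕ → ℕ := fun n => if n ∈ x then 1 else 0

theorem pt_lt (x : Set ℕ) (n : ℕ) : pt x n < 4 := by
  unfold pt
  split_ifs <;> omega

theorem pt_odd (x : Set ℕ) (n : ℕ) : pt x n % 2 = 1 ↔ n ∈ x := by
  unfold pt
  split_ifs with h <;> simp [h]

/-- the closed set attached to a set of natural numbers -/
def CN (N : Set ℕ) : Set (ℕ → ℕ) := {f | (∀ n, f n < 4) ∧ ∀ n ∈ N, f n % 2 = 1}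

/-- small closed sets, used to fill at the points that are not special -/
def WW (f : ℕ → ℕ) (k : ℕ) : Set (ℕ → ℕ) :=
  {g | (∀ n, g n < 4) ∧ (∀ i < k, g i = f i) ∧ ∀ n, g n % 2 = f n % 2}

theorem pt_mem_CN (x N : Set ℕ) : pt x ∈ CN N ↔ N ⊆ x := by
  constructor
  · rintro ⟨_, h⟩ n hn
    exact (pt_odd x n).1 (h n hn)
  · intro h
    exact ⟨pt_lt x, fun n hn => (pt_odd x n).2 (h hn)⟩

theorem CN_anti {N N' : Set ℕ} (h : N ⊆ N') : CN N' ⊆ CN N :=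
  fun _ hf => ⟨hf.1, fun n hn => hf.2 n (h hn)⟩

/-- the special points -/
def Sp (𝒩 : Set (Set ℕ)) : Set (ℕ → ℕ) :=
  {f | ∃ x : Set ℕ, f = pt x ∧ ∀ N ∈ 𝒩, N ⊆ x → ∃ N' ∈ 𝒩, N ⊂ N' ∧ N' ⊆ x}

/-- the family of closed sets -/
def Fam (𝒩 : Set (Set ℕ)) : Set (Set (ℕ → ℕ)) :=
  {U | (∃ N ∈ 𝒩, U = CN N) ∨
    ∃ (f : ℕ → ℕ) (k : ℕ), (∀ n, f n < 4) ∧ U = WW f k ∧ ∀ g ∈ U, g ∉ Sp 𝒩}

theorem box_compact : IsCompact {f : ℕ → ℕ | ∀ n, f n < 4} := by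
  have h : IsCompact (Set.pi Set.univ (fun _ : ℕ => {m : ℕ | m < 4})) :=
    isCompact_univ_pi (fun _ => (Set.finite_lt_nat 4).isCompact)
  convert h using 1
  ext f
  simp

theorem closed_eval (S : Set ℕ) (n : ℕ) : IsClosed {f : ℕ → ℕ | f n ∈ S} := by
  have h : Continuous (fun f : ℕ → ℕ => f n) := continuous_apply n
  exact (isClosed_discrete S).preimage h

theorem CN_closed (N : Set ℕ) : IsClosed (CN N) := by
  have h1 : CN N = (⋂ n, {f : ℕ → ℕ | f n < 4}) ∩ ⋂ n, ⋂ (_ : n ∈ N), {f : ℕ → ℕ | f n % 2 = 1} := by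
    ext f
    simp [CN]
  rw [h1]
  refine IsClosed.inter (isClosed_iInter fun n => ?_)
    (isClosed_iInter fun n => isClosed_iInter fun _ => ?_)
  · exact closed_eval {m : ℕ | m < 4} n
  · exact closed_eval {m : ℕ | m % 2 = 1} n

theorem WW_closed (f : ℕ → ℕ) (k : ℕ) : IsClosed (WW f k) := by
  have h1 : WW f k = (⋂ n, {g : ℕ → ℕ | g n < 4}) ∩ ((⋂ i, ⋂ (_ : i < k), {g : ℕ → ℕ | g i = f i}) ∩
      ⋂ n, {g : ℕ → ℕ | g n % 2 = f n % 2}) := by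
    ext g
    simp [WW]
  rw [h1]
  refine IsClosed.inter (isClosed_iInter fun n => ?_)
    (IsClosed.inter (isClosed_iInter fun i => isClosed_iInter fun _ => ?_)
      (isClosed_iInter fun n => ?_))
  · exact closed_eval {m : ℕ | m < 4} n
  · exact closed_eval {m : ℕ | m = f i} i
  · exact closed_eval {m : ℕ | m % 2 = f n % 2} n

theorem Fam_closed (𝒩 : Set (Set ℕ)) : ∀ U ∈ Fam 𝒩, IsClosed U ∧ IsCompact U := by
  rintro U (⟨N, _, rfl⟩ | ⟨f, k, _, rfl, _⟩)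
  · exact ⟨CN_closed N, box_compact.of_isClosed_subset (CN_closed N) (fun _ hf => hf.1)⟩
  · exact ⟨WW_closed f k, box_compact.of_isClosed_subset (WW_closed f k) (fun _ hf => hf.1)⟩

/-- changing one value, keeping parity -/
theorem exists_change (f : ℕ → ℕ) (hf : ∀ n, f n < 4) (k : ℕ) :
    ∃ g : ℕ → ℕ, (∀ n, g n < 4) ∧ (∀ n, n ≠ k → g n = f n) ∧ (∀ n, g n % 2 = f n % 2) ∧
      g k ≠ f k := by
  refine ⟨Function.update f k ((f k + 2) % 4), ?_, ?_, ?_, ?_⟩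
  · intro n
    by_cases h : n = k
    · subst h
      simp only [Function.update_self]
      omega
    · rw [Function.update_of_ne h]
      exact hf n
  · intro n h
    rw [Function.update_of_ne h]
  · intro n
    by_cases h : n = k
    · subst h
      simp only [Function.update_self]
      omega
    · rw [Function.update_of_ne h]
  · have := hf k
    simp only [Function.update_self]
    omega

theorem Fam_selfFilling (𝒩 : Set (Set ℕ)) : SelfFilling (Fam 𝒩) := by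
  rw [SelfFilling, fills_iff]
  rintro U (⟨N, hN, rfl⟩ | ⟨f, k, hf4, rfl, hsp⟩) f' hf'
  · by_cases hf : f' ∈ Sp 𝒩
    · obtain ⟨x, rfl, hx⟩ := hf
      obtain ⟨N', hN', hss, hsub⟩ := hx N hN ((pt_mem_CN x N).1 hf')
      refine ⟨CN N', Or.inl ⟨N', hN', rfl⟩, ?_, (pt_mem_CN x N').2 hsub, CN_anti hss.1⟩
      intro he
      have h1 : pt N ∈ CN N := (pt_mem_CN N N).2 (le_refl _)
      rw [← he] at h1
      exact hss.2 ((pt_mem_CN N N').1 h1)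
    · obtain ⟨k, hk1, hk⟩ : ∃ k, 1 ≤ k ∧ ∀ g ∈ WW f' k, g ∉ Sp 𝒩 := by
        by_contra hcon
        push Not at hcon
        have key : ∀ k, 1 ≤ k → (∀ i < k, f' i = pt {n | f' n % 2 = 1} i) ∧
            ∀ N ∈ 𝒩, N ⊆ {n | f' n % 2 = 1} → ∃ N' ∈ 𝒩, N ⊂ N' ∧ N' ⊆ {n | f' n % 2 = 1} := by
          intro k hk
          obtain ⟨g, hg, y, rfl, hy⟩ := hcon k hk
          have hyx : y = {n | f' n % 2 = 1} := by
            ext n
            rw [← pt_odd, hg.2.2 n]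
            rfl
          subst hyx
          exact ⟨fun i hi => (hg.2.1 i hi).symm, hy⟩
        apply hf
        refine ⟨{n | f' n % 2 = 1}, ?_, (key 1 (le_refl _)).2⟩
        funext i
        exact (key (i + 1) (by omega)).1 i (Nat.lt_succ_self i)
      refine ⟨WW f' k, Or.inr ⟨f', k, hf'.1, rfl, hk⟩, ?_, ⟨hf'.1, fun _ _ => rfl, fun _ => rfl⟩, ?_⟩
      · intro he
        obtain ⟨g, hg1, _, hg3, hg4⟩ := exists_change f' hf'.1 0
        have h1 : g ∈ CN N := ⟨hg1, fun n hn => by rw [hg3 n]; exact hf'.2 n hn⟩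
        rw [← he] at h1
        exact hg4 (h1.2.1 0 (by omega))
      · rintro g ⟨hg1, _, hg3⟩
        exact ⟨hg1, fun n hn => by rw [hg3 n]; exact hf'.2 n hn⟩
  · have hsub : WW f' (k + 1) ⊆ WW f k := by
      rintro g ⟨hg1, hg2, hg3⟩
      exact ⟨hg1, fun i hi => by rw [hg2 i (by omega)]; exact hf'.2.1 i hi,
        fun n => by rw [hg3 n]; exact hf'.2.2 n⟩
    refine ⟨WW f' (k + 1), Or.inr ⟨f', k + 1, hf'.1, rfl, fun g hg => hsp g (hsub hg)⟩, ?_,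
      ⟨hf'.1, fun _ _ => rfl, fun _ => rfl⟩, hsub⟩
    intro he
    obtain ⟨g, hg1, hg2, hg3, hg4⟩ := exists_change f' hf'.1 k
    have h1 : g ∈ WW f k := ⟨hg1, fun i hi => by rw [hg2 i (by omega)]; exact hf'.2.1 i hi,
      fun n => by rw [hg3 n]; exact hf'.2.2 n⟩
    rw [← he] at h1
    exact hg4 (h1.2.1 k (Nat.lt_succ_self k))

theorem Fam_irresolvable (𝒩 : Set (Set ℕ))
    (h𝒩 : ∀ c : Set ℕ → Bool, ∃ x : Set ℕ,
      (∀ N ∈ 𝒩, N ⊆ x → ∃ N' ∈ 𝒩, N ⊂ N' ∧ N' ⊆ x) ∧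
      ∃ N₀ ∈ 𝒩, N₀ ⊆ x ∧ ∃ col : Bool, ∀ N ∈ 𝒩, N₀ ⊂ N → N ⊆ x → c N = col) :
    ¬ Resolvable (Fam 𝒩) := by
  classical
  rintro ⟨F₀, F₁, hF, hdisj, h₀, h₁⟩
  rw [fills_iff] at h₀ h₁
  obtain ⟨x, hx, N₀, hN₀, hN₀x, col, hcol⟩ := h𝒩 (fun N => decide (CN N ∈ F₁))
  have hU : CN N₀ ∈ Fam 𝒩 := Or.inl ⟨N₀, hN₀, rfl⟩
  have he : pt x ∈ CN N₀ := (pt_mem_CN x N₀).2 hN₀x
  have hsp : pt x ∈ Sp 𝒩 := ⟨x, rfl, hx⟩
  have key : ∀ W ∈ Fam 𝒩, W ≠ CN N₀ → pt x ∈ W → W ⊆ CN N₀ → decide (W ∈ F₁) = col := by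
    rintro W (⟨N, hN, rfl⟩ | ⟨f, k, hf4, rfl, hno⟩) hne hmem hsub
    · refine hcol N hN ⟨?_, ?_⟩ ((pt_mem_CN x N).1 hmem)
      · exact (pt_mem_CN N N₀).1 (hsub ((pt_mem_CN N N).2 (le_refl _)))
      · intro hle
        exact hne (Set.Subset.antisymm hsub (CN_anti hle))
    · exact absurd hsp (hno _ hmem)
  cases col with
  | true =>
    obtain ⟨W, hW, hne, hmem, hsub⟩ := h₀ _ hU _ he
    have h1 := key W (hF ▸ Or.inl hW) hne hmem hsub
    have h2 : W ∈ F₀ ∩ F₁ := ⟨hW, by simpa using h1⟩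
    rw [hdisj] at h2
    exact h2
  | false =>
    obtain ⟨W, hW, hne, hmem, hsub⟩ := h₁ _ hU _ he
    have h1 := key W (hF ▸ Or.inr hW) hne hmem hsub
    exact (by simpa using h1 : W ∉ F₁) hW

/-- There is an irresolvable self-filling family of closed (compact, Borel) subsets of the
Baire space. -/
theorem result : ∃ F : Set (Set (ℕ → ℕ)),
    (∀ U ∈ F, IsClosed U ∧ IsCompact U ∧ @MeasurableSet _ (borel (ℕ → ℕ)) U) ∧
      SelfFilling F ∧ ¬ Resolvable F := by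
  obtain ⟨𝒩, h𝒩⟩ := core
  refine ⟨Fam 𝒩, ?_, Fam_selfFilling 𝒩, Fam_irresolvable 𝒩 h𝒩⟩
  intro U hU
  obtain ⟨h1, h2⟩ := Fam_closed 𝒩 U hU
  refine ⟨h1, h2, ?_⟩
  let _ := borel (ℕ → ℕ)
  have : BorelSpace (ℕ → ℕ) := ⟨rfl⟩
  exact h1.measurableSet

end Pool.Agent.Results.MP_0ab388_gt.Main
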